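import Pool.Agent.H141R2.FS.Three
import Pool.Agent.H565R2.NS.Tsq

/-!
# `n = x² + y² + z² + 4w²` with control of the prime factors of `2^x + 2^y + 2^z + 1`
-/

set_option autoImplicit false

namespace Pool.Agent.Results.MP_f6c7cf_nt.SmallPrimeFactors

/-- The local statement at the prime factors of `2^a + 1`. -/
theorem coprime_of {a u x y z : ℕ} (ha : 0 < a) (hu : Odd u) (hx : x = a * u)
    (hpar : (y + z) % 2 ≠ a % 2) :
    Nat.Coprime (2 ^ x + 2 ^ y + 2 ^ z + 1) (2 ^ a + 1) := by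
  refine Nat.Coprime.symm (Nat.coprime_of_dvd ?_)
  intro q hq hqa hqV
  have : Fact q.Prime := ⟨hq⟩
  have h1 : (2 : ZMod q) ^ a = -1 := by
    have h : ((2 ^ a + 1 : ℕ) : ZMod q) = 0 := (ZMod.natCast_eq_zero_iff _ _).2 hqa
    push_cast at h
    linear_combination h
  have h2 : (2 : ZMod q) ^ x = -1 := by
    rw [hx, pow_mul, h1, hu.neg_one_pow]
  have h3 : (2 : ZMod q) ^ y = -(2 : ZMod q) ^ z := by
    have h : ((2 ^ x + 2 ^ y + 2 ^ z + 1 : ℕ) : ZMod q) = 0 := (ZMod.natCast_eq_zero_iff _ _).2 hqV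
    push_cast at h
    linear_combination h - h2
  have h4 : (-1 : ZMod q) ^ y = (-1) ^ a * (-1) ^ z := by
    calc (-1 : ZMod q) ^ y = ((2 : ZMod q) ^ y) ^ a := by rw [← h1, ← pow_mul, ← pow_mul, mul_comm]
      _ = (-(2 : ZMod q) ^ z) ^ a := by rw [h3]
      _ = (-1) ^ a * ((2 : ZMod q) ^ z) ^ a := by rw [neg_pow]
      _ = (-1) ^ a * (-1) ^ z := by
          congr 1
          rw [← h1, ← pow_mul, ← pow_mul, mul_comm]
  have h5 : (1 : ZMod q) = -1 := by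
    rw [← pow_add] at h4
    rcases Nat.even_or_odd y with hy | hy
    · have ho : Odd (a + z) := by
        rw [Nat.odd_iff]
        rw [Nat.even_iff] at hy
        omega
      rw [hy.neg_one_pow, ho.neg_one_pow] at h4
      exact h4
    · have ho : Even (a + z) := by
        rw [Nat.even_iff]
        rw [Nat.odd_iff] at hy
        omega
      rw [hy.neg_one_pow, ho.neg_one_pow] at h4
      exact h4.symm
  have h6 : (2 : ZMod q) = 0 := by linear_combination h5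
  rw [h6, zero_pow (by omega)] at h1
  have h7 : (1 : ZMod q) = 0 := by linear_combination h1
  exact one_ne_zero h7

/-- Three even entries: one of the three pairs avoids a prime factor of `2^a - 1`. -/
theorem exists_pair {a u x A B C p : ℕ} (hodd : Odd a) (hx : x = a * u) (hp : p.Prime)
    (hpa : p ∣ 2 ^ a - 1) :
    ¬ p ∣ 2 ^ x + 2 ^ A + 2 ^ B + 1 ∨ ¬ p ∣ 2 ^ x + 2 ^ A + 2 ^ C + 1 ∨
      ¬ p ∣ 2 ^ x + 2 ^ B + 2 ^ C + 1 := by
  by_contra hcon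
  push Not at hcon
  obtain ⟨c1, c2, c3⟩ := hcon
  have : Fact p.Prime := ⟨hp⟩
  have h1 : (2 : ZMod p) ^ a = 1 := by
    have h : ((2 ^ a - 1 : ℕ) : ZMod p) = 0 := (ZMod.natCast_eq_zero_iff _ _).2 hpa
    rw [Nat.cast_sub Nat.one_le_two_pow] at h
    push_cast at h
    linear_combination h
  have ha : a ≠ 0 := by
    rintro rfl
    exact (Nat.not_odd_iff_even.2 (by simp)) hodd
  have h2 : (2 : ZMod p) ≠ 0 := by
    intro h2
    rw [h2, zero_pow ha] at h1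
    exact zero_ne_one h1
  have hx1 : (2 : ZMod p) ^ x = 1 := by rw [hx, pow_mul, h1, one_pow]
  have e1 : (2 : ZMod p) ^ x + 2 ^ A + 2 ^ B + 1 = 0 := by
    have h : ((2 ^ x + 2 ^ A + 2 ^ B + 1 : ℕ) : ZMod p) = 0 := (ZMod.natCast_eq_zero_iff _ _).2 c1
    push_cast at h
    exact h
  have e2 : (2 : ZMod p) ^ x + 2 ^ A + 2 ^ C + 1 = 0 := by
    have h : ((2 ^ x + 2 ^ A + 2 ^ C + 1 : ℕ) : ZMod p) = 0 := (ZMod.natCast_eq_zero_iff _ _).2 c2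
    push_cast at h
    exact h
  have e3 : (2 : ZMod p) ^ x + 2 ^ B + 2 ^ C + 1 = 0 := by
    have h : ((2 ^ x + 2 ^ B + 2 ^ C + 1 : ℕ) : ZMod p) = 0 := (ZMod.natCast_eq_zero_iff _ _).2 c3
    push_cast at h
    exact h
  rw [hx1] at e1 e2 e3
  have h3 : (2 : ZMod p) * ((2 : ZMod p) ^ A + 1) = 0 := by
    linear_combination e1 + e2 - e3
  have h4 : (2 : ZMod p) ^ A = -1 := by
    rcases mul_eq_zero.1 h3 with h | h
    · exact absurd h h2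
    · linear_combination h
  have h5 : ((2 : ZMod p) ^ A) ^ a = 1 := by
    rw [← pow_mul, mul_comm, pow_mul, h1, one_pow]
  rw [h4, hodd.neg_one_pow] at h5
  apply h2
  linear_combination -h5

theorem sqm (x : ℕ) : x ^ 2 % 4 = x % 2 := by
  rcases Nat.even_or_odd' x with ⟨k, hk | hk⟩
  · rw [hk]
    have : (2 * k) ^ 2 = 4 * k ^ 2 := by ring
    omega
  · rw [hk]
    have : (2 * k + 1) ^ 2 = 4 * (k ^ 2 + k) + 1 := by ring
    omega

theorem nat_three {m : ℕ} (h : ∃ x y z : ℤ, x ^ 2 + y ^ 2 + z ^ 2 = m) :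
    ∃ x y z : ℕ, x ^ 2 + y ^ 2 + z ^ 2 = m := by
  obtain ⟨x, y, z, h⟩ := h
  refine ⟨x.natAbs, y.natAbs, z.natAbs, ?_⟩
  zify
  rw [sq_abs, sq_abs, sq_abs]
  exact h

/-- `a` even and `n = 1 mod 4`. -/
theorem repA {n a : ℕ} (ha : a % 2 = 0) (hn : n % 4 = 1) (h : a ^ 2 ≤ n) :
    ∃ y z w : ℕ, n = a ^ 2 + y ^ 2 + z ^ 2 + 4 * w ^ 2 ∧ (y + z) % 2 = 1 := by
  have h1 := sqm a
  obtain ⟨X, Y, Z, hXYZ⟩ := nat_three
    (Pool.Agent.H141R2.FS.three_squares_one (m := n - a ^ 2) (by omega))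
  have hX := sqm X
  have hY := sqm Y
  have hZ := sqm Z
  have h2 : ∀ w : ℕ, (2 * w) ^ 2 = 4 * w ^ 2 := fun w => by ring
  rcases Nat.mod_two_eq_zero_or_one X with hx | hx
  · rcases Nat.mod_two_eq_zero_or_one Y with hy | hy
    · obtain ⟨w, hw⟩ : ∃ w, X = 2 * w := ⟨X / 2, by omega⟩
      have h3 := h2 w
      rw [← hw] at h3
      exact ⟨Y, Z, w, by omega, by omega⟩
    · obtain ⟨w, hw⟩ : ∃ w, X = 2 * w := ⟨X / 2, by omega⟩
      have h3 := h2 w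
      rw [← hw] at h3
      exact ⟨Y, Z, w, by omega, by omega⟩
  · obtain ⟨w, hw⟩ : ∃ w, Z = 2 * w := ⟨Z / 2, by omega⟩
    have h3 := h2 w
    rw [← hw] at h3
    exact ⟨X, Y, w, by omega, by omega⟩

/-- `a` odd and `n = 3 mod 4`. -/
theorem repB {n a : ℕ} (ha : a % 2 = 1) (hn : n % 4 = 3) (h : a ^ 2 ≤ n) :
    ∃ y z w : ℕ, n = a ^ 2 + y ^ 2 + z ^ 2 + 4 * w ^ 2 ∧ (y + z) % 2 = 0 := by
  have h1 := sqm a
  obtain ⟨X, Y, Z, hXYZ⟩ := nat_three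
    (Pool.Agent.H565R2.NS.three_squares_two (m := n - a ^ 2) (by omega))
  have hX := sqm X
  have hY := sqm Y
  have hZ := sqm Z
  have h2 : ∀ w : ℕ, (2 * w) ^ 2 = 4 * w ^ 2 := fun w => by ring
  rcases Nat.mod_two_eq_zero_or_one X with hx | hx
  · obtain ⟨w, hw⟩ : ∃ w, X = 2 * w := ⟨X / 2, by omega⟩
    have h3 := h2 w
    rw [← hw] at h3
    exact ⟨Y, Z, w, by omega, by omega⟩
  · rcases Nat.mod_two_eq_zero_or_one Y with hy | hy
    · obtain ⟨w, hw⟩ : ∃ w, Y = 2 * w := ⟨Y / 2, by omega⟩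
      have h3 := h2 w
      rw [← hw] at h3
      exact ⟨X, Z, w, by omega, by omega⟩
    · obtain ⟨w, hw⟩ : ∃ w, Z = 2 * w := ⟨Z / 2, by omega⟩
      have h3 := h2 w
      rw [← hw] at h3
      exact ⟨X, Y, w, by omega, by omega⟩

/-- `a` odd and `n = 1 mod 4`. -/
theorem repC {n a : ℕ} (ha : a % 2 = 1) (hn : n % 4 = 1) (h : 9 * a ^ 2 ≤ n) :
    ∃ u X Y Z : ℕ, Odd u ∧ n = (a * u) ^ 2 + (2 * X) ^ 2 + (2 * Y) ^ 2 + (2 * Z) ^ 2 := by
  have h1 := sqm a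
  obtain ⟨k, hk⟩ : ∃ k, n = a ^ 2 + 4 * k := ⟨(n - a ^ 2) / 4, by omega⟩
  have h2 : ∀ w : ℕ, (2 * w) ^ 2 = 4 * w ^ 2 := fun w => by ring
  have hcase : k % 4 = 1 ∨ k % 4 = 2 ∨ (k - 2 * a ^ 2) % 4 = 1 ∨ (k - 2 * a ^ 2) % 4 = 2 := by
    omega
  have hthree : ∀ m : ℕ, m % 4 = 1 ∨ m % 4 = 2 → ∃ x y z : ℕ, x ^ 2 + y ^ 2 + z ^ 2 = m := by
    intro m hm
    rcases hm with hm | hm
    · exact nat_three (Pool.Agent.H141R2.FS.three_squares_one hm)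
    · exact nat_three (Pool.Agent.H565R2.NS.three_squares_two hm)
  by_cases hk1 : k % 4 = 1 ∨ k % 4 = 2
  · obtain ⟨X, Y, Z, hXYZ⟩ := hthree k hk1
    refine ⟨1, X, Y, Z, odd_one, ?_⟩
    rw [h2 X, h2 Y, h2 Z, mul_one]
    omega
  · obtain ⟨X, Y, Z, hXYZ⟩ := hthree (k - 2 * a ^ 2) (by omega)
    refine ⟨3, X, Y, Z, by decide, ?_⟩
    have h3 : (a * 3) ^ 2 = 9 * a ^ 2 := by ring
    rw [h2 X, h2 Y, h2 Z, h3]
    omega

theorem part_one {n a : ℕ} (hn : Odd n) (ha : 0 < a) (h : 9 * a ^ 2 ≤ n)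
    (hpar : Odd a ∨ n % 4 = 1) :
    ∃ x y z w : ℕ, n = x ^ 2 + y ^ 2 + z ^ 2 + 4 * w ^ 2 ∧
      Nat.Coprime (2 ^ x + 2 ^ y + 2 ^ z + 1) (2 ^ a + 1) := by
  have h2 : ∀ w : ℕ, (2 * w) ^ 2 = 4 * w ^ 2 := fun w => by ring
  have hn' := Nat.odd_iff.1 hn
  rcases Nat.mod_two_eq_zero_or_one a with h0 | h0
  · have hn1 : n % 4 = 1 := by
      rcases hpar with hp | hp
      · have := Nat.odd_iff.1 hp
        omega
      · exact hp
    obtain ⟨y, z, w, e1, e2⟩ := repA h0 hn1 (by omega)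
    exact ⟨a, y, z, w, e1, coprime_of (u := 1) ha odd_one (by ring) (by omega)⟩
  · have hc : n % 4 = 1 ∨ n % 4 = 3 := by omega
    rcases hc with hc | hc
    · obtain ⟨u, X, Y, Z, hu, e1⟩ := repC h0 hc h
      refine ⟨a * u, 2 * X, 2 * Y, Z, by rw [e1, h2 Z], coprime_of ha hu rfl (by omega)⟩
    · obtain ⟨y, z, w, e1, e2⟩ := repB h0 hc (by omega)
      exact ⟨a, y, z, w, e1, coprime_of (u := 1) ha odd_one (by ring) (by omega)⟩

theorem part_two {n a p : ℕ} (hn : n % 4 = 1) (ha : Odd a) (h : 9 * a ^ 2 ≤ n)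
    (hp : p.Prime) (hpa : p ∣ 2 ^ a - 1) :
    ∃ x y z w : ℕ, n = x ^ 2 + y ^ 2 + z ^ 2 + 4 * w ^ 2 ∧
      Nat.Coprime (2 ^ x + 2 ^ y + 2 ^ z + 1) (p * (2 ^ a + 1)) := by
  have h2 : ∀ w : ℕ, (2 * w) ^ 2 = 4 * w ^ 2 := fun w => by ring
  have ha0 : 0 < a := ha.pos
  have ha1 := Nat.odd_iff.1 ha
  obtain ⟨u, X, Y, Z, hu, e1⟩ := repC ha1 hn h
  have hX := h2 X
  have hY := h2 Y
  have hZ := h2 Z
  rcases exists_pair (x := a * u) (A := 2 * X) (B := 2 * Y) (C := 2 * Z) ha rfl hp hpa with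
    hh | hh | hh
  · exact ⟨a * u, 2 * X, 2 * Y, Z, by omega,
      Nat.Coprime.mul_right ((Nat.Prime.coprime_iff_not_dvd hp).2 hh).symm
        (coprime_of ha0 hu rfl (by omega))⟩
  · exact ⟨a * u, 2 * X, 2 * Z, Y, by omega,
      Nat.Coprime.mul_right ((Nat.Prime.coprime_iff_not_dvd hp).2 hh).symm
        (coprime_of ha0 hu rfl (by omega))⟩
  · exact ⟨a * u, 2 * Y, 2 * Z, X, by omega,
      Nat.Coprime.mul_right ((Nat.Prime.coprime_iff_not_dvd hp).2 hh).symm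
        (coprime_of ha0 hu rfl (by omega))⟩

theorem part_three {n p : ℕ} (hn : n % 4 = 1) (hp : p.Prime) (hp2 : p ≠ 2)
    (h : 9 * p ^ 2 ≤ n) :
    ∃ x y z w : ℕ, n = x ^ 2 + y ^ 2 + z ^ 2 + 4 * w ^ 2 ∧
      ¬ p ∣ 2 ^ x + 2 ^ y + 2 ^ z + 1 := by
  have : Fact p.Prime := ⟨hp⟩
  have h2 : (2 : ZMod p) ≠ 0 := by
    intro h2
    have h3 : ((2 : ℕ) : ZMod p) = 0 := by exact_mod_cast h2
    rw [ZMod.natCast_eq_zero_iff] at h3
    exact hp2 ((Nat.prime_dvd_prime_iff_eq hp Nat.prime_two).1 h3)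
  have hodd : Odd n := by rw [Nat.odd_iff]; omega
  set r := orderOf (2 : ZMod p) with hr
  have hr1 : (2 : ZMod p) ^ r = 1 := pow_orderOf_eq_one _
  have hrp : r ∣ p - 1 := orderOf_dvd_of_pow_eq_one (ZMod.pow_card_sub_one_eq_one h2)
  have hp1 : 1 < p := hp.one_lt
  have hrle : r ≤ p - 1 := Nat.le_of_dvd (by omega) hrp
  have hr0 : 0 < r := by
    rcases Nat.eq_zero_or_pos r with h0 | h0
    · rw [h0] at hrp
      have := Nat.eq_zero_of_zero_dvd hrp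
      omega
    · exact h0
  have hrsq : r ^ 2 ≤ p ^ 2 := Nat.pow_le_pow_left (by omega) 2
  rcases Nat.even_or_odd r with he | ho
  · obtain ⟨a, hra⟩ := he
    have ha0 : 0 < a := by omega
    have ha1 : (2 : ZMod p) ^ a = -1 := by
      have h3 : ((2 : ZMod p) ^ a - 1) * ((2 : ZMod p) ^ a + 1) = 0 := by
        have h4 : (2 : ZMod p) ^ a * (2 : ZMod p) ^ a = 1 := by
          rw [← pow_add, ← hra]; exact hr1
        linear_combination h4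
      rcases mul_eq_zero.1 h3 with h5 | h5
      · exfalso
        have h6 : (2 : ZMod p) ^ a = 1 := by linear_combination h5
        have h7 : r ∣ a := orderOf_dvd_of_pow_eq_one h6
        have := Nat.le_of_dvd ha0 h7
        omega
      · linear_combination h5
    have hsq : a ^ 2 ≤ p ^ 2 := Nat.pow_le_pow_left (by omega) 2
    obtain ⟨x, y, z, w, e1, e2⟩ := part_one hodd ha0 (by omega) (Or.inr hn)
    refine ⟨x, y, z, w, e1, fun hdvd => ?_⟩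
    have h8 : p ∣ 2 ^ a + 1 := by
      rw [← ZMod.natCast_eq_zero_iff]
      push_cast
      rw [ha1]; ring
    exact hp.one_lt.ne' (Nat.eq_one_of_dvd_coprimes e2 hdvd h8)
  · have h8 : p ∣ 2 ^ r - 1 := by
      rw [← ZMod.natCast_eq_zero_iff, Nat.cast_sub Nat.one_le_two_pow]
      push_cast
      rw [hr1]; ring
    obtain ⟨x, y, z, w, e1, e2⟩ := part_two hn ho (by omega) hp h8
    refine ⟨x, y, z, w, e1, fun hdvd => ?_⟩
    exact hp.one_lt.ne' (Nat.eq_one_of_dvd_coprimes e2 hdvd (Dvd.intro _ rfl))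

/-- For odd `n` and `a` with `9 a² ≤ n`, `a` odd or `n = 1 mod 4`, some representation
`n = x² + y² + z² + 4 w²` has `2^x + 2^y + 2^z + 1` coprime to `2^a + 1`. If `n = 1 mod 4` and `a`
is odd, one can avoid a given prime factor of `2^a - 1` as well; so for `n = 1 mod 4` no odd prime
`p ≤ √n / 3` divides `2^x + 2^y + 2^z + 1` for all representations of `n`. -/
theorem result (n : ℕ) (hn : Odd n) :
    (∀ a : ℕ, 0 < a → 9 * a ^ 2 ≤ n → (Odd a ∨ n % 4 = 1) →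
      ∃ x y z w : ℕ, n = x ^ 2 + y ^ 2 + z ^ 2 + 4 * w ^ 2 ∧
        Nat.Coprime (2 ^ x + 2 ^ y + 2 ^ z + 1) (2 ^ a + 1)) ∧
    (n % 4 = 1 → ∀ a : ℕ, Odd a → 9 * a ^ 2 ≤ n → ∀ p : ℕ, p.Prime → p ∣ 2 ^ a - 1 →
      ∃ x y z w : ℕ, n = x ^ 2 + y ^ 2 + z ^ 2 + 4 * w ^ 2 ∧
        Nat.Coprime (2 ^ x + 2 ^ y + 2 ^ z + 1) (p * (2 ^ a + 1))) ∧
    (n % 4 = 1 → ∀ p : ℕ, p.Prime → p ≠ 2 → 9 * p ^ 2 ≤ n →
      ∃ x y z w : ℕ, n = x ^ 2 + y ^ 2 + z ^ 2 + 4 * w ^ 2 ∧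
        ¬ p ∣ 2 ^ x + 2 ^ y + 2 ^ z + 1) :=
  ⟨fun _ ha h hpar => part_one hn ha h hpar, fun hn1 _ ha h _ hp hpa => part_two hn1 ha h hp hpa,
    fun hn1 _ hp hp2 h => part_three hn1 hp hp2 h⟩

end Pool.Agent.Results.MP_f6c7cf_nt.SmallPrimeFactors
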